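import Pool.Agent.Helper14.W5.StE
import Pool.Agent.Helper76.S7.Defs

/-!
# Project W7: Theorem A for the prime seven (`TAp 7`), for all weights

The statements of `Pool/Agent/Helper14/W5/StE.lean` with a `P` are for any prime and are used as they are (`EvUP`, `KsP`, `IntP`, `SPTA`, ...). New here: (1) the values are integer combinations of
values at words (`evc`), so that nothing depends on the operators of the lower bound; (2) at level `49` the kernel of the single value `K(1,0) - K(0,1)` is not zero (dimension two), so the base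
`BseP` of the induction for `K` is replaced by `BseW`.
-/

set_option autoImplicit false

namespace Pool.Agent.Helper79.S7

open Pool.Agent.Helper14.CV (Homog EqC act Tl StFar StFex)
open Pool.Agent.Helper28.WK (SymP Tw evw Ok UIp TAp)
open Pool.Agent.Helper14.W5
open Pool.Agent.Helper76.S7

/-- An integer combination of values at words. -/
def evc {R : Type} [AddCommGroup R] (m : ℤ) (C : List (ℤ × List ℕ)) (G : ℤ → ℤ → R) : R :=
  (C.map fun c => c.1 • evw m c.2 G).sum

/-- All words of `C` are words in the `T_l`, `l ≠ p` prime. -/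
def OkC (p : ℕ) (C : List (ℤ × List ℕ)) : Prop := ∀ c ∈ C, Ok p c.2

/-- The content of BAS: an integral family with determinant prime to `p`. -/
def BasP (p : ℕ) (D : ℕ → ℕ) : Prop := ∀ m : ℕ, 3 ≤ m →
  ∃ (G : Fin (D m) → ℤ → ℤ → ℤ) (C : Fin (D m) → List (ℤ × List ℕ)), (∀ k, SymP p 0 m (G k)) ∧
    (∀ l, OkC p (C l)) ∧ ¬ (p : ℤ) ∣ Matrix.det (Matrix.of fun k l => evc 1 (C l) (G k))

/-- The content of DIM. -/
def DimP (p : ℕ) (D : ℕ → ℕ) : Prop := ∀ (m : ℕ) (G : Fin (D m) → (ℤ → ℤ → ℂ)), 3 ≤ m →
  (∀ k, SymP p 0 m (G k)) → LinearIndependent ℂ (fun k => evLP p (G k)) →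
  ∀ H : ℤ → ℤ → ℂ, SymP p 0 m H → evLP p H ∈ Submodule.span ℂ (Set.range fun k => evLP p (G k))

/-- DIM7. As `S5DimOf` (bound at level `49` from EV, L2 as in `S7CoreOf`). -/
def S7DimOf : Prop := SPEv → SPB3a → S7L2 → S7UB → DimP 7 DD7

/-- NEX7. As `S5NexOf`. -/
def S7NexOf : Prop := SPEv → SPB3a → S7L2 → S7UB → S7LB → NexP 7

/-- The base of the induction for `K`: level `p²`, killed by all words. -/
def BseW (p : ℕ) : Prop := ∀ K : ℤ → ℤ → ℂ, SymP p 0 2 K → EqC (act 0 (-1) ((p : ℤ) ^ 2) 0 K) (-K) →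
  EqC (act (-1) 0 0 1 K) K → Wz p 1 K → EqC K 0

/-- BSE7. The space `X` of the symbols of level `49` with `W ≈ -1`, `* ≈ 1` has a linear map to `ℂ²` whose kernel consists of constants (L2). Every vector `evLP 7 G`, `G` of level `49`, is one of `X`
(`H⁺` of B3b), so by LB for `n = 2` (`DD7 2 = 2`) the image of `X` under `evLP 7`, which vanishes on constants, has dimension at least two, and `evLP 7` is injective on `X` modulo constants. -/
def S7BseOf : Prop := SPEv → S7L2 → S7LB → BseW 7

/-- K with the new base. As `SPKk`. -/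
def SPKkW : Prop := ∀ p : ℕ, p.Prime → KsP p → BseW p → KkP p

/-- CRM. Cramer, as `S5CrmOf`. -/
def SPCrm : Prop := ∀ (p : ℕ) (D : ℕ → ℕ), p.Prime → BasP p D → DimP p D → LftP p → CrmP p

end Pool.Agent.Helper79.S7
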