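import Pool.Agent.Helper79.S7.StE

/-!
# Project W7: DIM, NEX and the base of the induction for K (lemmas copied from `Helper8/S7/M_CoreOf.lean`)
-/

set_option autoImplicit false

namespace Pool.Agent.Helper79.S7

open Pool.Agent.Helper14.CV Pool.Agent.Helper14.W5 Pool.Agent.Helper76.S7
open Pool.Agent.Helper28.WK (SymP Tw evw Ok)

private theorem Tw_congr (ls : List ℕ) (hls : Ok 7 ls) {G H : ℤ → ℤ → ℂ} (h : EqC G H) :
    EqC (Tw 1 ls G) (Tw 1 ls H) := by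
  induction ls with
  | nil => exact h
  | cons l ls ih =>
    exact (ih fun x hx => hls x (List.mem_cons_of_mem _ hx)).Tl
      (hls l List.mem_cons_self).1.pos 1

private theorem evLP_apply (G : ℤ → ℤ → ℂ) (ls : List ℕ) (hls : Ok 7 ls) :
    evLP 7 G ls = evw 1 ls G := if_pos hls

private theorem evLP_apply' (G : ℤ → ℤ → ℂ) (ls : List ℕ) (hls : ¬ Ok 7 ls) :
    evLP 7 G ls = 0 := if_neg hls

private theorem evLP_congr {G H : ℤ → ℤ → ℂ} (h : EqC G H) : evLP 7 G = evLP 7 H := by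
  funext ls
  by_cases hls : Ok 7 ls
  · rw [evLP_apply _ _ hls, evLP_apply _ _ hls]
    exact (Tw_congr ls hls h).diff (Or.inl one_ne_zero) (Or.inr one_ne_zero)
  · rw [evLP_apply' _ _ hls, evLP_apply' _ _ hls]

/-- The image of `ev` on the symbols of level `7^n`. -/
private noncomputable def V (n : ℕ) : Submodule ℂ (List ℕ → ℂ) := (XSP 7 n).map (evLP 7)

/-- The image of `ev` on the new symbols of level `7^n`. -/
private noncomputable def W (n : ℕ) : Submodule ℂ (List ℕ → ℂ) := (NSP 7 n).map (evLP 7)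

private theorem V_le_of_B3a (h : SPB3a) {n : ℕ} (hn : 3 ≤ n) : V n ≤ V (n - 1) ⊔ W n := by
  rintro x ⟨G, hG, rfl⟩
  obtain ⟨G0, G1, h0, h1, h2⟩ := h 7 (by norm_num) n G hn hG
  refine Submodule.mem_sup.mpr ⟨(evLP 7) G0, ⟨G0, h0, rfl⟩, (evLP 7) G1, ⟨G1, h1, rfl⟩, ?_⟩
  funext ls
  show evLP 7 G0 ls + evLP 7 G1 ls = evLP 7 G ls
  by_cases hls : Ok 7 ls
  · rw [evLP_apply _ _ hls, evLP_apply _ _ hls, evLP_apply _ _ hls]
    exact (h2 ls hls).symm
  · rw [evLP_apply' _ _ hls, evLP_apply' _ _ hls, evLP_apply' _ _ hls, add_zero]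

/-- A space of symbols which is determined up to constants by `d` values. -/
private theorem X_bound {X : Submodule ℂ (ℤ → ℤ → ℂ)} {d : ℕ} (Θ : X →ₗ[ℂ] (Fin d → ℂ))
    (hΘ : ∀ G : X, Θ G = 0 → EqC (G : ℤ → ℤ → ℂ) 0) :
    Module.Finite ℂ (X.map (evLP 7)) ∧ Module.finrank ℂ (X.map (evLP 7)) ≤ d ∧
      ∀ G ∈ X, (evLP 7) G = 0 → ¬ EqC G 0 →
        Module.finrank ℂ (X.map (evLP 7)) + 1 ≤ d := by
  set f : X →ₗ[ℂ] (List ℕ → ℂ) := (evLP 7) ∘ₗ X.subtype with hf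
  have hker : LinearMap.ker Θ ≤ LinearMap.ker f := by
    intro G hG
    have h1 : EqC (G : ℤ → ℤ → ℂ) 0 := hΘ G (LinearMap.mem_ker.mp hG)
    refine LinearMap.mem_ker.mpr ?_
    show evLP 7 (G : ℤ → ℤ → ℂ) = 0
    rw [evLP_congr h1]
    exact map_zero (evLP 7)
  set g : LinearMap.range Θ →ₗ[ℂ] (List ℕ → ℂ) :=
    (Submodule.liftQ (LinearMap.ker Θ) f hker) ∘ₗ (Θ.quotKerEquivRange.symm).toLinearMap with hg
  have hgΘ : ∀ G : X, g ⟨Θ G, LinearMap.mem_range_self Θ G⟩ = f G := by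
    intro G
    have h1 : Θ.quotKerEquivRange.symm ⟨Θ G, LinearMap.mem_range_self Θ G⟩ =
        (LinearMap.ker Θ).mkQ G := by
      rw [LinearEquiv.symm_apply_eq]
      rfl
    show (Submodule.liftQ (LinearMap.ker Θ) f hker)
      (Θ.quotKerEquivRange.symm ⟨Θ G, LinearMap.mem_range_self Θ G⟩) = f G
    rw [h1]
    rfl
  have hrange : X.map (evLP 7) = LinearMap.range g := by
    ext x
    constructor
    · rintro ⟨G, hG, rfl⟩
      exact ⟨⟨Θ ⟨G, hG⟩, LinearMap.mem_range_self Θ _⟩, hgΘ ⟨G, hG⟩⟩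
    · rintro ⟨⟨y, G, rfl⟩, rfl⟩
      exact ⟨(G : ℤ → ℤ → ℂ), G.2, (hgΘ G).symm⟩
  have hfin : Module.Finite ℂ (X.map (evLP 7)) := by
    rw [hrange]
    infer_instance
  have hrk := LinearMap.finrank_range_add_finrank_ker g
  have hle : Module.finrank ℂ (LinearMap.range Θ) ≤ d := by
    have := Submodule.finrank_le (LinearMap.range Θ)
    simpa using this
  refine ⟨hfin, ?_, ?_⟩
  · rw [hrange]
    omega
  · intro G hG he hne
    have h1 : Θ ⟨G, hG⟩ ≠ 0 := fun h0 => hne (hΘ ⟨G, hG⟩ h0)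
    have h2 : (⟨Θ ⟨G, hG⟩, LinearMap.mem_range_self Θ _⟩ : LinearMap.range Θ) ∈
        LinearMap.ker g := by
      rw [LinearMap.mem_ker, hgΘ ⟨G, hG⟩]
      exact he
    have h5 : Nontrivial (LinearMap.ker g) := by
      refine ⟨⟨⟨_, h2⟩, 0, fun h0 => h1 ?_⟩⟩
      have h4 := congrArg Subtype.val h0
      exact congrArg Subtype.val h4
    have h3 : 0 < Module.finrank ℂ (LinearMap.ker g) :=
      Module.finrank_pos (R := ℂ) (M := LinearMap.ker g)
    rw [hrange]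
    omega

/-! ### Level 49 -/

private theorem hn_W {G : ℤ → ℤ → ℂ} (hG : SymP 7 0 2 G) : SymP 7 0 2 (act 0 (-1) 49 0 G) := by
  refine SymP.act hG (by norm_num) fun a b c d hd _ hc => ?_
  obtain ⟨e, rfl⟩ := hc
  refine ⟨d, -e, -49 * b, a, ?_, by simp, ⟨-b, by push_cast; ring⟩, ?_, ?_, ?_, ?_⟩
  · push_cast at hd ⊢; linear_combination hd
  · push_cast; ring
  · ring
  · ring
  · ring

private theorem hn_S {G : ℤ → ℤ → ℂ} (hG : SymP 7 0 2 G) : SymP 7 0 2 (act (-1) 0 0 1 G) := by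
  refine SymP.act hG (by norm_num) fun a b c d hd _ hc => ?_
  refine ⟨a, -b, -c, d, ?_, by simp, (dvd_neg).mpr hc, ?_, ?_, ?_, ?_⟩
  · linear_combination hd
  · ring
  · ring
  · ring
  · ring

private theorem evw_add (ls : List ℕ) (G H : ℤ → ℤ → ℂ) :
    evw 1 ls (G + H) = evw 1 ls G + evw 1 ls H := by
  simp only [evw, Tw_add, Pi.add_apply]; ring

private theorem evw_smul (ls : List ℕ) (s : ℂ) (G : ℤ → ℤ → ℂ) :
    evw 1 ls (s • G) = s * evw 1 ls G := by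
  simp only [evw, Tw_smul, Pi.smul_apply, smul_eq_mul]; ring

private theorem evw_neg (ls : List ℕ) (G : ℤ → ℤ → ℂ) : evw 1 ls (-G) = -evw 1 ls G := by
  have := evw_smul ls (-1) G
  rw [neg_one_smul] at this
  rw [this]; ring

/-- The symbols of level 49 with `W = -1`, `* = 1`. -/
private def X2 : Submodule ℂ (ℤ → ℤ → ℂ) where
  carrier := {K | SymP 7 0 2 K ∧ EqC (act 0 (-1) 49 0 K) (-K) ∧ EqC (act (-1) 0 0 1 K) K}
  add_mem' := by
    rintro K L ⟨h1, h2, h3⟩ ⟨k1, k2, k3⟩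
    refine ⟨SymP.add h1 k1, ?_, h3.add k3⟩
    rw [neg_add]
    exact h2.add k2
  zero_mem' := by
    refine ⟨⟨fun _ _ _ _ _ => rfl, fun _ _ _ _ _ _ _ => EqC.refl _⟩, ?_, EqC.refl _⟩
    exact ⟨0, fun p q _ => by simp [act]⟩
  smul_mem' := by
    rintro s K ⟨h1, h2, h3⟩
    refine ⟨SymP.smul s h1, ?_, h3.smul s⟩
    rw [← smul_neg]
    exact h2.smul s

private theorem proj (hEv : SPEv) (G : ℤ → ℤ → ℂ) (hG : SymP 7 0 2 G) :
    ∃ E ∈ X2, ∀ ls : List ℕ, Ok 7 ls → evw 1 ls E = 4 * evw 1 ls G := by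
  have hn := hn_W hG
  have hev := fun ls ho => (hEv 7 (by norm_num) ℂ _ 2 G hG ls ho).1
  norm_num at hev
  obtain ⟨H, hH⟩ : ∃ H : ℤ → ℤ → ℂ, H = G + -act 0 (-1) 49 0 G := ⟨_, rfl⟩
  have hHev : ∀ ls : List ℕ, Ok 7 ls → evw 1 ls H = 2 * evw 1 ls G := by
    intro ls ho
    rw [hH, evw_add, evw_neg, hev ls ho]
    ring
  have hHS : SymP 7 0 2 H := by
    rw [hH]
    exact SymP.add hG (SymP.neg hn)
  have hWW : EqC (act 0 (-1) 49 0 (act 0 (-1) 49 0 G)) G := by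
    rw [act_act]
    have := hG.1.scale (a := 1) (b := 0) (c := 0) (d := 1) (-49) (by norm_num) (by norm_num)
    rw [act_one] at this
    norm_num at this ⊢
    exact this
  have hHW : EqC (act 0 (-1) 49 0 H) (-H) := by
    have e1 : act 0 (-1) 49 0 H = act 0 (-1) 49 0 G - act 0 (-1) 49 0 (act 0 (-1) 49 0 G) := by
      rw [hH, ← sub_eq_add_neg]; rfl
    have e2 : -H = act 0 (-1) 49 0 G - G := by
      rw [hH, neg_add, neg_neg]; abel
    rw [e1, e2]
    exact (EqC.refl _).sub hWW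
  have hHst := hn_S hHS
  have hHevst := fun ls ho => (hEv 7 (by norm_num) ℂ _ 2 H hHS ls ho).2
  obtain ⟨E, hE⟩ : ∃ E : ℤ → ℤ → ℂ, E = H + act (-1) 0 0 1 H := ⟨_, rfl⟩
  have hEev : ∀ ls : List ℕ, Ok 7 ls → evw 1 ls E = 4 * evw 1 ls G := by
    intro ls ho
    rw [hE, evw_add, hHevst ls ho, hHev ls ho]
    ring
  have hES : SymP 7 0 2 E := by
    rw [hE]
    exact SymP.add hHS hHst
  have hEst : EqC (act (-1) 0 0 1 E) E := by
    refine EqC.of_eq fun p q _ => ?_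
    rw [hE]
    simp only [act, Pi.add_apply]
    ring_nf
  have hEW : EqC (act 0 (-1) 49 0 E) (-E) := by
    have a1 : act 0 (-1) 49 0 E = act 0 (-1) 49 0 H + act 0 (-1) 49 0 (act (-1) 0 0 1 H) := by
      rw [hE]; rfl
    have a2 : EqC (act 0 (-1) 49 0 (act (-1) 0 0 1 H)) (act (-1) 0 0 1 (act 0 (-1) 49 0 H)) := by
      refine EqC.of_eq fun p q hpq => ?_
      simp only [act]
      have := hHS.1 (-1) q (49 * p) (by norm_num) (by omega)
      norm_num at this ⊢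
      exact this.symm
    have a3 : EqC (act (-1) 0 0 1 (act 0 (-1) 49 0 H)) (act (-1) 0 0 1 (-H)) :=
      hHW.act (by norm_num)
    have a4 : -E = -H + act (-1) 0 0 1 (-H) := by
      rw [hE, neg_add]; rfl
    rw [a1, a4]
    exact hHW.add (a2.trans a3)
  exact ⟨E, ⟨hES, hEW, hEst⟩, hEev⟩

private theorem mem_X2 (hEv : SPEv) {G : ℤ → ℤ → ℂ} (hG : SymP 7 0 2 G) :
    evLP 7 G ∈ X2.map (evLP 7) := by
  obtain ⟨E, hE, hev⟩ := proj hEv G hG
  refine ⟨(1 / 4 : ℂ) • E, X2.smul_mem _ hE, ?_⟩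
  funext ls
  rw [map_smul, Pi.smul_apply, smul_eq_mul]
  by_cases hls : Ok 7 ls
  · rw [evLP_apply _ _ hls, evLP_apply _ _ hls, hev ls hls]
    ring
  · rw [evLP_apply' _ _ hls, evLP_apply' _ _ hls, mul_zero]

/-- The two values. -/
private def Th2 : X2 →ₗ[ℂ] (Fin 2 → ℂ) where
  toFun K := ![(K : ℤ → ℤ → ℂ) 1 0 - (K : ℤ → ℤ → ℂ) 1 7, (K : ℤ → ℤ → ℂ) 1 7 - (K : ℤ → ℤ → ℂ) 2 7]
  map_add' K L := by
    funext i
    fin_cases i <;> simp <;> ring
  map_smul' s K := by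
    funext i
    fin_cases i <;> simp <;> ring

private theorem Th2_ker (hL2 : S7L2) (K : X2) (h : Th2 K = 0) : EqC (K : ℤ → ℤ → ℂ) 0 := by
  have h0 := congrFun h 0
  have h1 := congrFun h 1
  simp only [Th2, LinearMap.coe_mk, AddHom.coe_mk, Matrix.cons_val_zero, Matrix.cons_val_one,
    Pi.zero_apply] at h0 h1
  exact hL2 K K.2.1 K.2.2.1 K.2.2.2 (sub_eq_zero.1 h0) (sub_eq_zero.1 h1)

private theorem DD7_2 : DD7 2 = 2 := dd7_small.2.2.2.2.2.1

private theorem V_bound (hEv : SPEv) (h3a : SPB3a) (hL2 : S7L2) (hUB : S7UB) (n : ℕ) (hn : 2 ≤ n) :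
    Module.Finite ℂ (V n) ∧ Module.finrank ℂ (V n) ≤ DD7 n := by
  induction n, hn using Nat.le_induction with
  | base =>
    obtain ⟨x1, x2, -⟩ := X_bound Th2 (Th2_ker hL2)
    have hle : V 2 ≤ X2.map (evLP 7) := by
      rintro x ⟨G, hG, rfl⟩
      exact mem_X2 hEv hG
    have hfin : Module.Finite ℂ (V 2) := Submodule.finiteDimensional_of_le hle
    refine ⟨hfin, ?_⟩
    have h1 := Submodule.finrank_mono hle
    rw [DD7_2]
    omega
  | succ m hm ih =>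
    obtain ⟨ih1, ih2⟩ := ih
    have hm3 : 3 ≤ m + 1 := by omega
    obtain ⟨Θ, hΘ⟩ := hUB (m + 1) hm3
    obtain ⟨w1, w2, _⟩ := X_bound Θ hΘ
    have w1' : Module.Finite ℂ (W (m + 1)) := w1
    have w2' : Module.finrank ℂ (W (m + 1)) ≤ dd7 (m + 1) := w2
    have hle := V_le_of_B3a h3a hm3
    rw [Nat.add_sub_cancel] at hle
    have hfin : Module.Finite ℂ (V m ⊔ W (m + 1) : Submodule ℂ (List ℕ → ℂ)) :=
      Submodule.finiteDimensional_sup _ _
    refine ⟨Submodule.finiteDimensional_of_le hle, ?_⟩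
    have h1 := Submodule.finrank_mono hle
    have h2 := Submodule.finrank_add_le_finrank_add_finrank (V m) (W (m + 1))
    have h3 : DD7 (m + 1) = DD7 m + dd7 (m + 1) := by
      unfold DD7
      rw [Finset.sum_range_succ]
      ring
    omega

/-- DIM7. -/
theorem hDimOf : S7DimOf := by
  intro hEv h3a hL2 hUB m G hm hG hli H hH
  obtain ⟨v1, v2⟩ := V_bound hEv h3a hL2 hUB m (by omega)
  have hle : Submodule.span ℂ (Set.range fun k => evLP 7 (G k)) ≤ V m := by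
    rw [Submodule.span_le]
    rintro x ⟨k, rfl⟩
    exact ⟨G k, hG k, rfl⟩
  have hrk : Module.finrank ℂ (V m) ≤
      Module.finrank ℂ (Submodule.span ℂ (Set.range fun k => evLP 7 (G k))) := by
    rw [finrank_span_eq_card hli, Fintype.card_fin]
    exact v2
  have heq := Submodule.eq_of_le_of_finrank_le hle hrk
  rw [heq]
  exact ⟨H, hH, rfl⟩

/-- NEX7. -/
theorem hNexOf : S7NexOf := by
  intro hEv h3a hL2 hUB hLB m G0 G1 hm hG0 hG1 hev
  by_contra hne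
  have he : evLP 7 G1 = -evLP 7 G0 := by
    funext ls
    by_cases hls : Ok 7 ls
    · have h1 : evLP 7 G1 ls = evw 1 ls G1 := if_pos hls
      have h2 : evLP 7 G0 ls = evw 1 ls G0 := if_pos hls
      rw [h1, Pi.neg_apply, h2]
      exact eq_neg_of_add_eq_zero_right (hev ls hls)
    · have h1 : evLP 7 G1 ls = 0 := if_neg hls
      have h2 : evLP 7 G0 ls = 0 := if_neg hls
      rw [h1, Pi.neg_apply, h2, neg_zero]
  obtain ⟨Θ, hΘ⟩ := hUB m hm
  obtain ⟨w1, w2, w3⟩ := X_bound Θ hΘ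
  have w1' : Module.Finite ℂ (W m) := w1
  have w2' : Module.finrank ℂ (W m) ≤ dd7 m := w2
  have w3' : evLP 7 G1 = 0 → Module.finrank ℂ (W m) + 1 ≤ dd7 m := fun h => w3 G1 hG1 h hne
  obtain ⟨v1, v2⟩ := V_bound hEv h3a hL2 hUB (m - 1) (by omega)
  have hle := V_le_of_B3a h3a (n := m) hm
  have hfin : Module.Finite ℂ (V (m - 1) ⊔ W m : Submodule ℂ (List ℕ → ℂ)) :=
    Submodule.finiteDimensional_sup _ _
  have hfinV : Module.Finite ℂ (V m) := Submodule.finiteDimensional_of_le hle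
  have h1 := Submodule.finrank_mono hle
  have h2 := Submodule.finrank_sup_add_finrank_inf_eq (V (m - 1)) (W m)
  have h3 : DD7 m = DD7 (m - 1) + dd7 m := by
    obtain ⟨k, rfl⟩ : ∃ k, m = k + 1 := ⟨m - 1, by omega⟩
    rw [Nat.add_sub_cancel]
    unfold DD7
    rw [Finset.sum_range_succ]
    ring
  obtain ⟨H, hH, hli⟩ := hLB m (by omega)
  have hli' : LinearIndependent ℂ (fun k => (⟨evLP 7 (H k), ⟨H k, hH k, rfl⟩⟩ : V m)) := by
    refine LinearIndependent.of_comp (V m).subtype ?_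
    exact hli
  have h4 := hli'.fintype_card_le_finrank
  rw [Fintype.card_fin] at h4
  by_cases h0 : evLP 7 G1 = 0
  · have hw := w3' h0
    omega
  · have hmem : evLP 7 G1 ∈ V (m - 1) ⊓ W m := by
      refine ⟨?_, ⟨G1, hG1, rfl⟩⟩
      rw [he]
      exact (V (m - 1)).neg_mem ⟨G0, hG0, rfl⟩
    have hnt : Nontrivial (V (m - 1) ⊓ W m : Submodule ℂ (List ℕ → ℂ)) :=
      ⟨⟨⟨_, hmem⟩, 0, fun h => h0 (congrArg Subtype.val h)⟩⟩
    have hf : Module.Finite ℂ (V (m - 1) ⊓ W m : Submodule ℂ (List ℕ → ℂ)) :=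
      Submodule.finiteDimensional_of_le inf_le_left
    have h5 : 0 < Module.finrank ℂ (V (m - 1) ⊓ W m : Submodule ℂ (List ℕ → ℂ)) :=
      Module.finrank_pos
    omega

/-- BSE7. -/
theorem hBseOf : S7BseOf := by
  intro hEv hL2 hLB K hK hW hst hev
  by_contra hne
  have he : (evLP 7) K = 0 := by
    funext ls
    by_cases hls : Ok 7 ls
    · rw [evLP_apply _ _ hls]
      exact hev ls hls
    · rw [evLP_apply' _ _ hls]
      rfl
  obtain ⟨H, hH, hli⟩ := hLB 2 le_rfl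
  obtain ⟨x1, -, x3⟩ := X_bound Th2 (Th2_ker hL2)
  have hKX : K ∈ X2 := by
    norm_num at hW
    exact ⟨hK, hW, hst⟩
  have h1 := x3 K hKX he hne
  have hli' : LinearIndependent ℂ
      (fun k => (⟨evLP 7 (H k), mem_X2 hEv (hH k)⟩ : X2.map (evLP 7))) := by
    refine LinearIndependent.of_comp (X2.map (evLP 7)).subtype ?_
    exact hli
  have h4 := hli'.fintype_card_le_finrank
  rw [Fintype.card_fin, DD7_2] at h4
  omega

/-- K with the new base. -/
theorem hKkW : SPKkW := by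
  intro p _ hKs hBse m G hm
  have mono : ∀ {s s' : ℕ}, s ≤ s' → ∀ {G : ℤ → ℤ → ℂ}, SymP p 0 s G → SymP p 0 s' G :=
    fun hs _ h => ⟨h.1, fun a b c d hd hb hc => h.2 a b c d hd hb ((pow_dvd_pow _ hs).trans hc)⟩
  induction m, hm using Nat.le_induction generalizing G with
  | base =>
    intro hS hW hst hev
    obtain ⟨G', ψ, hG', hψ, hW', hst', hev', hG⟩ := hKs 3 G le_rfl hS hW hst hev
    have h0 : EqC G' 0 := hBse G' hG' hW' hst' hev'
    refine ⟨ψ, hψ, ?_⟩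
    have h2 := h0.add (EqC.refl (act p 0 0 1 ψ - ψ))
    rw [zero_add] at h2
    exact (hG.trans h2).symm
  | succ k hk ih =>
    intro hS hW hst hev
    obtain ⟨G', ψ, hG', hψ, hW', hst', hev', hG⟩ := hKs (k + 1) G (by omega) hS hW hst hev
    obtain ⟨ψ', hψ', he⟩ := ih G' hG' hW' hst' hev'
    refine ⟨ψ' + ψ, SymP.add (mono (by omega) hψ') hψ, ?_⟩
    have h3 := he.add (EqC.refl (act p 0 0 1 ψ - ψ))
    have h4 : act p 0 0 1 (ψ' + ψ) - (ψ' + ψ) =
        act p 0 0 1 ψ' - ψ' + (act p 0 0 1 ψ - ψ) := by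
      rw [act_add]
      abel
    rw [h4]
    exact h3.trans hG.symm

end Pool.Agent.Helper79.S7
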