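import Pool.Agent.Helper79.S7.StE2

/-!
# Project W7, module BasOf: an integral family of symbols with determinant prime to seven
-/

set_option autoImplicit false

namespace Pool.Agent.Helper79.S7

open Pool.Agent.Helper84.S7 Pool.Agent.Helper4.S7 Pool.Agent.Helper76.S7
open Pool.Agent.Helper14.CV (Homog EqC act Tl)
open Pool.Agent.Helper28.WK (SymP Tw evw Ok)

namespace BasM

/-! ### transport of an integral symbol -/

/-- The potential `G(7^r p, q)`. -/
private def Gi (r : ℕ) (G : ℤ → ℤ → ℤ) : ℤ → ℤ → ℤ := fun p q => G (7 ^ r * p) q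

private lemma seven_or (r : ℕ) {p q : ℤ} (h : p ≠ 0 ∨ q ≠ 0) : (7 ^ r * p ≠ 0 ∨ q ≠ 0) := by
  rcases h with h0 | h0
  · exact Or.inl (mul_ne_zero (by positivity) h0)
  · exact Or.inr h0

private lemma sym_Gi {r s : ℕ} {G : ℤ → ℤ → ℤ} (h : SymP 7 r s G) :
    SymP 7 0 (r + s) (Gi r G) := by
  refine ⟨?_, ?_⟩
  · intro k p q hk hpq
    have e := h.1 k (7 ^ r * p) q hk (seven_or r hpq)
    have e1 : (7 : ℤ) ^ r * (k * p) = k * (7 ^ r * p) := by ring
    simp only [Gi]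
    rw [e1, e]
  · intro a b c d hdet _ hc
    obtain ⟨c', hc'⟩ := hc
    push_cast at hc'
    obtain ⟨k, hk⟩ := h.2 a (7 ^ r * b) (7 ^ s * c') d
      (by rw [← hdet, hc', pow_add]; ring) (by push_cast; exact Dvd.intro _ rfl)
      (by push_cast; exact Dvd.intro _ rfl)
    refine ⟨k, ?_⟩
    intro p q hpq
    have e := hk (7 ^ r * p) q (seven_or r hpq)
    simp only [act, Gi] at e ⊢
    have e1 : (7 : ℤ) ^ r * (a * p + b * q) = a * (7 ^ r * p) + 7 ^ r * b * q := by ring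
    have e2 : c * p + d * q = 7 ^ s * c' * (7 ^ r * p) + d * q := by
      rw [hc', pow_add]
      ring
    rw [e1, e2, e]

private lemma Tl_Gi (l r : ℕ) (G : ℤ → ℤ → ℤ) : Tl l 1 (Gi r G) = Gi r (Tl l (7 ^ r) G) := by
  funext p q
  simp only [Tl, Gi]
  congr 1
  · congr 1
    ring
  · refine Finset.sum_congr rfl ?_
    intro j _
    congr 1
    ring

private lemma homog_Tl {G : ℤ → ℤ → ℤ} (l : ℕ) (hl : 0 < l) (m : ℤ) (h : Homog G) :
    Homog (Tl l m G) := by
  intro k p q hk hpq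
  have hl0 : (l : ℤ) ≠ 0 := by exact_mod_cast hl.ne'
  simp only [Tl]
  congr 1
  · have e := h k (l * p) q hk (by
      rcases hpq with h0 | h0
      · exact Or.inl (mul_ne_zero hl0 h0)
      · exact Or.inr h0)
    rw [← e]
    congr 1
    ring
  · refine Finset.sum_congr rfl ?_
    intro j _
    have e := h k (p + m * j * q) (l * q) hk (by
      by_cases hq : q = 0
      · left
        rcases hpq with h0 | h0
        · rw [hq, mul_zero, add_zero]
          exact h0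
        · exact absurd hq h0
      · exact Or.inr (mul_ne_zero hl0 hq))
    rw [← e]
    congr 1
    · ring
    · ring

private lemma Tw_Gi (ls : List ℕ) (r : ℕ) (G : ℤ → ℤ → ℤ) :
    Tw 1 ls (Gi r G) = Gi r (Tw (7 ^ r) ls G) := by
  induction ls with
  | nil => rfl
  | cons l ls ih => rw [Tw, Tw, ih, Tl_Gi]

private lemma homog_Tw {G : ℤ → ℤ → ℤ} (h : Homog G) (m : ℤ) (ls : List ℕ) (hl : Ok 7 ls) :
    Homog (Tw m ls G) := by
  induction ls with
  | nil => exact h
  | cons l ls ih =>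
    rw [Tw]
    exact homog_Tl l (hl l List.mem_cons_self).1.pos m
      (ih fun l' hl' => hl l' (List.mem_cons_of_mem _ hl'))

private lemma evw_Gi {r s : ℕ} {G : ℤ → ℤ → ℤ} (hG : SymP 7 r s G) (ls : List ℕ) (hl : Ok 7 ls) :
    evw 1 ls (Gi r G) = evw (7 ^ r) ls G := by
  unfold evw
  rw [Tw_Gi]
  have e := homog_Tw hG.1 (7 ^ r) ls hl (7 ^ r) 1 0 (by positivity) (Or.inl one_ne_zero)
  rw [mul_zero] at e
  simp only [Gi]
  rw [mul_zero, e]

private lemma evc_Gi {r s : ℕ} {G : ℤ → ℤ → ℤ} (hG : SymP 7 r s G) (C : List (ℤ × List ℕ))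
    (hC : OkC 7 C) : evc 1 C (Gi r G) = evc (7 ^ r) C G := by
  unfold evc
  congr 1
  refine List.map_congr_left fun c hc => ?_
  rw [evw_Gi hG c.2 (hC c hc)]

/-! ### word operators -/

/-- Operators given by the same integer combination of words for all groups. -/
private def WO (A : ∀ (R : Type) [AddCommGroup R], ℤ → (ℤ → ℤ → R) → (ℤ → ℤ → R)) : Prop :=
  ∃ C : List (ℤ × List ℕ), OkC 7 C ∧ ∀ (R : Type) [AddCommGroup R] (m : ℤ) (G : ℤ → ℤ → R)
    (p q : ℤ), A R m G p q = (C.map fun c => c.1 • Tw m c.2 G p q).sum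

private lemma wo_id : WO (fun _ _ _ G => G) := by
  refine ⟨[(1, [])], ?_, ?_⟩
  · intro c hc l hl
    rw [List.mem_singleton] at hc
    rw [hc] at hl
    exact absurd hl (by simp)
  · intro R _ m G p q
    simp [Tw]

private lemma wo_add {A B : ∀ (R : Type) [AddCommGroup R], ℤ → (ℤ → ℤ → R) → (ℤ → ℤ → R)}
    (hA : WO A) (hB : WO B) : WO (fun R _ m G => A R m G + B R m G) := by
  obtain ⟨C, hC, h1⟩ := hA
  obtain ⟨D, hD, h2⟩ := hB
  refine ⟨C ++ D, ?_, ?_⟩
  · intro c hc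
    rcases List.mem_append.1 hc with h | h
    · exact hC c h
    · exact hD c h
  · intro R _ m G p q
    rw [List.map_append, List.sum_append, ← h1, ← h2]
    rfl

private lemma wo_smul (n : ℤ) {A : ∀ (R : Type) [AddCommGroup R], ℤ → (ℤ → ℤ → R) → (ℤ → ℤ → R)}
    (hA : WO A) : WO (fun R _ m G => n • A R m G) := by
  obtain ⟨C, hC, h1⟩ := hA
  refine ⟨C.map fun c => (n * c.1, c.2), ?_, ?_⟩
  · intro c hc
    obtain ⟨d, hd, rfl⟩ := List.mem_map.1 hc
    exact hC d hd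
  · intro R _ m G p q
    have h := h1 R m G p q
    show n • A R m G p q = _
    rw [h, List.map_map]
    clear h h1 hC
    induction C with
    | nil => simp
    | cons c C ih =>
      rw [List.map_cons, List.map_cons, List.sum_cons, List.sum_cons, smul_add, ih]
      simp only [Function.comp_apply]
      rw [mul_smul]

private lemma wo_neg {A : ∀ (R : Type) [AddCommGroup R], ℤ → (ℤ → ℤ → R) → (ℤ → ℤ → R)}
    (hA : WO A) : WO (fun R _ m G => -A R m G) := by
  have h := wo_smul (-1) hA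
  simp only [neg_smul, one_smul] at h
  exact h

private lemma wo_sub {A B : ∀ (R : Type) [AddCommGroup R], ℤ → (ℤ → ℤ → R) → (ℤ → ℤ → R)}
    (hA : WO A) (hB : WO B) : WO (fun R _ m G => A R m G - B R m G) := by
  have h := wo_add hA (wo_neg hB)
  simp only [← sub_eq_add_neg] at h
  exact h

private lemma wo_Tl (l : ℕ) (hl : l.Prime) (hl7 : l ≠ 7)
    {A : ∀ (R : Type) [AddCommGroup R], ℤ → (ℤ → ℤ → R) → (ℤ → ℤ → R)}
    (hA : WO A) : WO (fun R _ m G => Tl l m (A R m G)) := by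
  obtain ⟨C, hC, h1⟩ := hA
  refine ⟨C.map fun c => (c.1, l :: c.2), ?_, ?_⟩
  · intro c hc
    obtain ⟨d, hd, rfl⟩ := List.mem_map.1 hc
    intro l' hl'
    rcases List.mem_cons.1 hl' with h | h
    · rw [h]
      exact ⟨hl, hl7⟩
    · exact hC d hd l' h
  · intro R _ m G p q
    rw [List.map_map]
    show A R m G (l * p) q + ∑ j ∈ Finset.range l, A R m G (p + m * j * q) (l * q) = _
    have e : ∀ p q : ℤ, A R m G p q = (C.map fun c => c.1 • Tw m c.2 G p q).sum := h1 R m G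
    simp only [e]
    clear e h1 hC
    induction C with
    | nil => simp
    | cons c C ih =>
      simp only [List.map_cons, List.sum_cons, Finset.sum_add_distrib] at ih ⊢
      rw [← ih]
      simp only [Function.comp_apply, Tw, Tl, smul_add, Finset.smul_sum]
      abel

private lemma wo_iter {B : ∀ (R : Type) [AddCommGroup R], ℤ → (ℤ → ℤ → R) → (ℤ → ℤ → R)}
    (hB : ∀ A : ∀ (R : Type) [AddCommGroup R], ℤ → (ℤ → ℤ → R) → (ℤ → ℤ → R), WO A →
      WO (fun R _ m G => B R m (A R m G)))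
    {A : ∀ (R : Type) [AddCommGroup R], ℤ → (ℤ → ℤ → R) → (ℤ → ℤ → R)} (hA : WO A) (i : ℕ) :
    WO (fun R _ m G => (B R m)^[i] (A R m G)) := by
  induction i with
  | zero => exact hA
  | succ i ih =>
    have h := hB _ ih
    simp only [← Function.iterate_succ_apply'] at h
    exact h

private lemma wo_U {A : ∀ (R : Type) [AddCommGroup R], ℤ → (ℤ → ℤ → R) → (ℤ → ℤ → R)}
    (hA : WO A) : WO (fun R _ m G => Uo7 m (A R m G)) := by
  have h2 := wo_Tl 2 (by norm_num) (by norm_num) hA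
  exact wo_add (wo_sub (wo_Tl 2 (by norm_num) (by norm_num) h2) (wo_smul 4 h2)) (wo_smul 3 hA)

private lemma wo_Z {A : ∀ (R : Type) [AddCommGroup R], ℤ → (ℤ → ℤ → R) → (ℤ → ℤ → R)}
    (hA : WO A) : WO (fun R _ m G => Zo7 m (A R m G)) := by
  have h2 := wo_Tl 2 (by norm_num) (by norm_num) hA
  exact wo_add (wo_add (wo_Tl 2 (by norm_num) (by norm_num) h2) h2) (wo_smul 2 hA)

private lemma wo_V {A : ∀ (R : Type) [AddCommGroup R], ℤ → (ℤ → ℤ → R) → (ℤ → ℤ → R)}
    (hA : WO A) : WO (fun R _ m G => Vo7 m (A R m G)) :=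
  wo_Tl 3 (by norm_num) (by norm_num) (wo_Z hA)

private lemma wo_V8 {A : ∀ (R : Type) [AddCommGroup R], ℤ → (ℤ → ℤ → R) → (ℤ → ℤ → R)}
    (hA : WO A) : WO (fun R _ m G => V8o m (A R m G)) := by
  have h2 := wo_Tl 2 (by norm_num) (by norm_num) hA
  have h22 := wo_Tl 2 (by norm_num) (by norm_num) h2
  have h3 := wo_Tl 3 (by norm_num) (by norm_num) hA
  have h33 := wo_Tl 3 (by norm_num) (by norm_num) h3
  exact wo_add (wo_Tl 3 (by norm_num) (by norm_num)
      (wo_sub (wo_sub (wo_add (wo_smul 3 hA) (wo_smul 2 h2)) h22) h33))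
    (wo_Tl 5 (by norm_num) (by norm_num) (wo_add h22 (wo_smul 4 hA)))

private lemma wo_O {A : ∀ (R : Type) [AddCommGroup R], ℤ → (ℤ → ℤ → R) → (ℤ → ℤ → R)}
    (hA : WO A) : WO (fun R _ m G => O5o m (A R m G)) := by
  have h2 := wo_Tl 2 (by norm_num) (by norm_num) hA
  have h22 := wo_Tl 2 (by norm_num) (by norm_num) h2
  have h3 := wo_Tl 3 (by norm_num) (by norm_num) hA
  have h32 := wo_Tl 3 (by norm_num) (by norm_num) h2
  exact wo_add (wo_add (wo_add (wo_add h32 (wo_smul 2 h22)) (wo_smul 3 h2)) (wo_smul 2 h3))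
    (wo_smul 2 hA)

private lemma wo_wd (c i j : ℕ) : WO (fun R _ m G => wd7 m G c i j) := by
  unfold wd7
  by_cases h0 : c = 0
  · simp only [h0, if_true]
    exact wo_iter (B := fun R _ m => Uo7 m) (fun _ h => wo_U h)
      (wo_iter (B := fun R _ m => V8o m) (fun _ h => wo_V8 h) wo_id j) i
  · by_cases h1 : c = 1
    · simp only [h0, h1, if_true, if_false, one_ne_zero]
      exact wo_Z (wo_iter (B := fun R _ m => Uo7 m) (fun _ h => wo_U h)
        (wo_iter (B := fun R _ m => Vo7 m) (fun _ h => wo_V h) wo_id (2 * j)) i)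
    · by_cases h2 : c = 2
      · simp only [h0, h1, h2, if_true, if_false]
        norm_num
        exact wo_Z (wo_iter (B := fun R _ m => Uo7 m) (fun _ h => wo_U h)
          (wo_iter (B := fun R _ m => Vo7 m) (fun _ h => wo_V h) wo_id (2 * j + 1)) i)
      · simp only [h0, h1, h2, if_false]
        exact wo_O (wo_iter (B := fun R _ m => Uo7 m) (fun _ h => wo_U h)
          (wo_iter (B := fun R _ m => V8o m) (fun _ h => wo_V8 h) wo_id j) i)

end BasM

open BasM in
/-- The value `ev7` is an integer combination of values at words, the same for all groups. -/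
theorem ev7_evc (c i j : ℕ) : ∃ C : List (ℤ × List ℕ), OkC 7 C ∧
    ∀ (R : Type) [AddCommGroup R] (m : ℤ) (G : ℤ → ℤ → R), ev7 m G c i j = evc m C G := by
  obtain ⟨C, hC, h⟩ := wo_wd c i j
  refine ⟨C, hC, ?_⟩
  intro R _ m G
  unfold ev7 evc evw
  have h10 : wd7 m G c i j 1 0 = _ := h R m G 1 0
  have h01 : wd7 m G c i j 0 1 = _ := h R m G 0 1
  rw [h10, h01]
  clear h10 h01 h hC
  induction C with
  | nil => simp
  | cons c C ih =>
    rw [List.map_cons, List.map_cons, List.map_cons, List.sum_cons, List.sum_cons,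
      List.sum_cons, ← ih, smul_sub]
    abel

namespace BasM

/-! ### the determinant -/

private theorem unit_det {ι : Type} [Fintype ι] [DecidableEq ι] (k1 k2 k3 : ι → ℕ)
    (hinj : ∀ t u, k1 t = k1 u → k2 t = k2 u → k3 t = k3 u → t = u) (M : Matrix ι ι ℤ)
    (hd : ∀ t, ((M t t : ℤ) : ZMod 7) ≠ 0)
    (hM : ∀ t u, ((M t u : ℤ) : ZMod 7) ≠ 0 →
      k1 u < k1 t ∨ (k1 u = k1 t ∧ k3 u = k3 t ∧ k2 u ≤ k2 t)) :
    ((M.det : ℤ) : ZMod 7) ≠ 0 := by
  have : Fact (Nat.Prime 7) := ⟨by norm_num⟩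
  intro h0
  have h1 : (M.map (fun x : ℤ => (x : ZMod 7))).det = 0 := by
    have := Int.cast_det (R := ZMod 7) M
    rw [h0] at this
    exact this.symm
  obtain ⟨v, hv, hz⟩ := Matrix.exists_vecMul_eq_zero_iff.2 h1
  have hne : (Finset.univ.filter fun t => v t ≠ 0).Nonempty := by
    by_contra hc
    rw [Finset.not_nonempty_iff_eq_empty, Finset.filter_eq_empty_iff] at hc
    apply hv
    funext t
    simpa using hc (Finset.mem_univ t)
  obtain ⟨t0, ht0, hmax⟩ := Finset.exists_max_image _ (fun t => (toLex (k1 t, k2 t) : ℕ ×ₗ ℕ)) hne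
  have hz0 := congrFun hz t0
  rw [Matrix.vecMul, dotProduct] at hz0
  rw [Finset.sum_eq_single t0] at hz0
  · simp only [Matrix.map_apply, Pi.zero_apply] at hz0
    rcases mul_eq_zero.1 hz0 with h | h
    · exact (Finset.mem_filter.1 ht0).2 h
    · exact hd t0 h
  · intro t _ htn
    by_cases hvt : v t = 0
    · rw [hvt, zero_mul]
    · by_cases hm : ((M t t0 : ℤ) : ZMod 7) = 0
      · simp only [Matrix.map_apply, hm, mul_zero]
      · exfalso
        have h2 := hmax t (Finset.mem_filter.2 ⟨Finset.mem_univ _, hvt⟩)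
        simp only [Prod.Lex.le_iff, ofLex_toLex] at h2
        have h3 := hM t t0 hm
        apply htn
        apply hinj
        · omega
        · omega
        · omega
  · intro h
    exact absurd (Finset.mem_univ _) h

private theorem inj7 {c i j c' i' j' : ℕ} (hc : c ≤ 3) (hc' : c' ≤ 3)
    (h1 : dg7 c i j = dg7 c' i' j') (h2 : rh7 c i j = rh7 c' i' j') (h3 : ty7 c = ty7 c') :
    c = c' ∧ i = i' ∧ j = j' := by
  unfold dg7 aa7 ab7 at h1
  unfold rh7 at h2
  unfold ty7 at h3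
  interval_cases c <;> interval_cases c' <;> simp only [reduceIte, Nat.reduceEqDiff,
    Nat.reduceLeDiff, OfNat.ofNat_ne_zero, one_ne_zero, OfNat.ofNat_ne_one, le_refl] at h1 h2 h3 <;>
    first | omega | (exact absurd h3 (by norm_num)) | (norm_num at h1 h2 h3; omega)

private theorem core (r s N n : ℕ) (I : Finset (ℕ × ℕ × ℕ))
    (hI : ∀ t ∈ I, t.1 ≤ 3 ∧ ae7 t.1 + t.2.1 + 7 * t.2.2 < 7 ^ r ∧
      ab7 t.1 + t.2.1 + t.2.2 < 7 ^ s) (hN : I.card = N)
    (hn : r + (s + 1) = n) (hTri : S7Tri) (hLie : S7Lie) :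
    ∃ (G : Fin N → ℤ → ℤ → ℤ) (C : Fin N → List (ℤ × List ℕ)), (∀ k, SymP 7 0 n (G k)) ∧
      (∀ l, OkC 7 (C l)) ∧ ¬ (7 : ℤ) ∣ Matrix.det (Matrix.of fun k l => evc 1 (C l) (G k)) := by
  choose Cw hCw hCe using ev7_evc
  have h1 : ∀ t : I, ∃ G : ℤ → ℤ → ℤ, SymP 7 0 n G ∧
      (((evc 1 (Cw t.1.1 t.1.2.1 t.1.2.2) G : ℤ) : ZMod 7) ≠ 0) ∧
      ∀ c i j, c ≤ 3 → (((evc 1 (Cw c i j) G : ℤ) : ZMod 7) ≠ 0 →
        (dg7 c i j < dg7 t.1.1 t.1.2.1 t.1.2.2 ∨
        (dg7 c i j = dg7 t.1.1 t.1.2.1 t.1.2.2 ∧ ty7 c = ty7 t.1.1 ∧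
          rh7 c i j ≤ rh7 t.1.1 t.1.2.1 t.1.2.2))) := by
    intro t
    obtain ⟨hc, ha, hb⟩ := hI t.1 t.2
    obtain ⟨g, hg, hg1, hg2⟩ := hTri r s t.1.1 t.1.2.1 t.1.2.2 hc ha hb
    obtain ⟨G, hG, hGe⟩ := hLie r s g hg
    refine ⟨Gi r G, hn ▸ sym_Gi hG, ?_, ?_⟩
    · rw [evc_Gi hG _ (hCw _ _ _), ← hCe, hGe]
      exact hg1
    · intro c i j hc1 hij
      apply hg2 c i j hc1
      rw [evc_Gi hG _ (hCw _ _ _), ← hCe, hGe] at hij
      exact hij
  choose G hS hd hM using h1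
  let M : Matrix I I ℤ := Matrix.of fun t u => evc 1 (Cw u.1.1 u.1.2.1 u.1.2.2) (G t)
  have hdet : ((M.det : ℤ) : ZMod 7) ≠ 0 := by
    refine unit_det (fun t : I => dg7 t.1.1 t.1.2.1 t.1.2.2)
      (fun t : I => rh7 t.1.1 t.1.2.1 t.1.2.2) (fun t : I => ty7 t.1.1) ?_ M
      (fun t => hd t) (fun t u htu => hM t _ _ _ (hI u.1 u.2).1 htu)
    intro t u h2 h3 h4
    have h5 := inj7 (hI t.1 t.2).1 (hI u.1 u.2).1 h2 h3 h4
    exact Subtype.ext (Prod.ext h5.1 (Prod.ext h5.2.1 h5.2.2))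
  let e : Fin N ≃ I := (I.equivFinOfCardEq hN).symm
  refine ⟨fun k => G (e k), fun l => Cw (e l).1.1 (e l).1.2.1 (e l).1.2.2, fun k => hS (e k),
    fun l => hCw _ _ _, ?_⟩
  have h2 : (Matrix.of fun k l => evc 1 (Cw (e l).1.1 (e l).1.2.1 (e l).1.2.2) (G (e k))) =
      M.submatrix e e := rfl
  rw [h2, Matrix.det_submatrix_equiv_self]
  intro h3
  exact hdet ((ZMod.intCast_zmod_eq_zero_iff_dvd _ 7).2 (by exact_mod_cast h3))

end BasM

open BasM in
theorem hBasOf : S7BasOf := by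
  intro hTri hLie hCnt n hn
  rcases Nat.even_or_odd' n with ⟨k, hk | hk⟩
  · subst hk
    refine core k (k - 1) _ _ _ ?_ (hCnt.1 k (by omega)) (by omega) hTri hLie
    intro t ht
    have h := Finset.mem_filter.1 ht
    have h0 := Finset.mem_range.1 (Finset.mem_product.1 h.1).1
    exact ⟨by omega, h.2.1, h.2.2⟩
  · subst hk
    refine core k k _ _ _ ?_ (hCnt.2 k (by omega)) (by omega) hTri hLie
    intro t ht
    have h := Finset.mem_filter.1 ht
    have h0 := Finset.mem_range.1 (Finset.mem_product.1 h.1).1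
    exact ⟨by omega, h.2.1, h.2.2⟩

end Pool.Agent.Helper79.S7
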