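import Pool.Agent.Helper10.W5.M_EvU
import Pool.Agent.Helper24.W5.M_TA
import Pool.Agent.Helper67.W5.M_Int
import Pool.Agent.Helper71.W5.M_Ks
import Pool.Agent.Helper76.S7.Ub
import Pool.Agent.Helper79.S7.M_BasOf
import Pool.Agent.Helper79.S7.M_Crm
import Pool.Agent.Helper79.S7.M_Dim
import Pool.Agent.Helper79.S7.M_Lfm
import Pool.Agent.Helper79.S7.M_LftOf
import Pool.Agent.Helper82.WK.M_UIp

/-!
# Project W7: Theorem A for the prime 7, assembled from the lower bound and the lifting of symbols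
-/

set_option autoImplicit false

namespace Pool.Agent.Helper79.S7

open Pool.Agent.Helper14.W5 (LftP)
open Pool.Agent.Helper28.WK (TAp)
open Pool.Agent.Helper84.S7 Pool.Agent.Helper4.S7 Pool.Agent.Helper76.S7

/-- Lifting of symbols for the prime 7. -/
theorem hLft7 (trm : S7Trm) (rel : S7Rel) (ex : S7Ex) (uni : S7Uni) : LftP 7 :=
  hLftOf rel ex uni (hLfm trm)

/-- Theorem A for the prime 7 from the lower bound, an integral basis and the lifting of symbols. -/
theorem hTA7of (lb : S7LB) (bas : BasP 7 DD7) (lft : LftP 7) : TAp 7 := by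
  have phk := Pool.Agent.Helper69.W5.hPHk Pool.Agent.Helper10.CV.hN1
  have phkS := Pool.Agent.Helper83.W5.hPHkS phk
  have pavg := Pool.Agent.Helper7.W5.hPAvg
  have pcom := Pool.Agent.Helper86.W5.hPCom
  have h7 : Nat.Prime 7 := by norm_num
  have dim := hDimOf ev b3a hL2c hUB7
  have nex := hNexOf ev b3a hL2c hUB7 lb
  have bse := hBseOf ev hL2c lb
  have evu := Pool.Agent.Helper10.W5.hEvU phk phkS 7 h7
  have ks := Pool.Agent.Helper71.W5.hKs pavg pcom ev 7 h7 nex evu
  have kk := hKkW 7 h7 ks bse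
  have crm := hCrm 7 DD7 h7 bas dim lft
  have int := Pool.Agent.Helper67.W5.hInt
    (Pool.Agent.Helper82.WK.hUIp Pool.Agent.Helper38.CV.hFar) 7 h7
  exact Pool.Agent.Helper24.W5.hTA pavg pcom ev 7 h7 crm kk int

/-- The core and Theorem A for the prime 7. -/
theorem hTA7 (lb : S7LB) (tri : S7Tri) (lie : S7Lie) (cnt : S7Cnt) (trm : S7Trm) (rel : S7Rel)
    (ex : S7Ex) (uni : S7Uni) : S7Core ∧ TAp 7 :=
  ⟨coreOfLB lb, hTA7of lb (hBasOf tri lie cnt) (hLft7 trm rel ex uni)⟩

end Pool.Agent.Helper79.S7
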