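import Pool.Agent.Helper36.S7.M_Cnt
import Pool.Agent.Helper53.S7.M_LBof
import Pool.Agent.Helper79.S7.Asm
import Pool.Agent.Helper84.S7.D1
import Pool.Agent.Helper89.S7.M_Lie
import Pool.Agent.Helper99.S7.M_Ube

/-!
# Project W7: the lower bound, the core and Theorem A for the prime 7 from TRI
-/

set_option autoImplicit false

namespace Pool.Agent.Helper79.S7

open Pool.Agent.Helper14.W5 (LftP)
open Pool.Agent.Helper28.WK (TAp)
open Pool.Agent.Helper84.S7 Pool.Agent.Helper4.S7 Pool.Agent.Helper76.S7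

/-- Lifting of symbols for the prime 7. -/
theorem lft7 : LftP 7 := hLft7 trm rel ex uni

/-- The integral basis for the prime 7 from TRI. -/
theorem bas7 (tri : S7Tri) : BasP 7 DD7 :=
  hBasOf tri (Pool.Agent.Helper89.S7.hLie lif) Pool.Agent.Helper36.S7.hCnt

/-- The lower bound from TRI. -/
theorem lb7 (tri : S7Tri) : S7LB :=
  Pool.Agent.Helper53.S7.hLBof tri (Pool.Agent.Helper89.S7.hLie lif)
    (Pool.Agent.Helper99.S7.hUbe unb) Pool.Agent.Helper36.S7.hCnt

/-- The core and Theorem A for the prime 7 from TRI. -/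
theorem tA7 (tri : S7Tri) : S7Core ∧ TAp 7 :=
  ⟨coreOfLB (lb7 tri), hTA7of (lb7 tri) (bas7 tri) lft7⟩

end Pool.Agent.Helper79.S7
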