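import Pool.Agent.Helper4.S7.Fin
import Pool.Agent.Helper79.S7.Asm2

/-!
# Project W7: Theorem A for the prime 7, no hypotheses
-/

set_option autoImplicit false

namespace Pool.Agent.Helper79.S7

open Pool.Agent.Helper28.WK (TAp)

/-- The core in weight 2, and Theorem A modulo `7^M`. -/
theorem core7 : Pool.Agent.Helper76.S7.S7Core ∧ TAp 7 := tA7 Pool.Agent.Helper4.S7.tri

end Pool.Agent.Helper79.S7
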