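import Pool.Agent.Helper79.S7.StE
import Pool.Agent.Helper4.S7.StD2

/-!
# Project W7: Theorem A for the prime seven, statements which use the operator calculus modulo 7
-/

set_option autoImplicit false

namespace Pool.Agent.Helper79.S7

open Pool.Agent.Helper14.W5 (LftP)
open Pool.Agent.Helper84.S7 Pool.Agent.Helper4.S7 Pool.Agent.Helper76.S7

/-- LFM7. Lifting solutions of the relations from `ZMod (7^M)` to `ℤ` (`3` is a unit). -/
def S7Lfm : Prop := ∀ (r s M : ℕ) (f : Fin 2 → ZMod (7 ^ r) → ZMod (7 ^ s) → ZMod (7 ^ M)), Rel7 f →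
  ∃ F : Fin 2 → ZMod (7 ^ r) → ZMod (7 ^ s) → ℤ, Rel7 F ∧
    ∀ i x y, ((F i x y : ℤ) : ZMod (7 ^ M)) = f i x y

/-- LFT7. Lifting symbols of level `7^m` from `ZMod (7^M)` to `ℤ`. -/
def S7LftOf : Prop := S7Rel → S7Ex → S7Uni → S7Lfm → LftP 7

/-- BAS7. An integral family with determinant prime to seven. -/
def S7BasOf : Prop := S7Tri → S7Lie → S7Cnt → BasP 7 DD7

end Pool.Agent.Helper79.S7
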